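import Mathlib
import Pool.Agent.Helper38.SG.Mod
import Pool.Agent.Helper38.SG.CasB

/-! # Sobolev gap, piece FCALC-A: functional calculus of the Casimir operator of `K` -/

open Filter Topology Set MeasureTheory
open scoped RealInnerProductSpace ContDiff

universe u

namespace Pool.Agent.Helper8.SG

open Pool.Agent.Helper38.SG

variable {G 𝔤 : Type u} [Group G] [TopologicalSpace G] [IsTopologicalGroup G] [T2Space G]
  [NormedAddCommGroup 𝔤] [InnerProductSpace ℝ 𝔤] [FiniteDimensional ℝ 𝔤] {P : ParData G 𝔤}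
  {U : Type u} [NormedAddCommGroup U] [InnerProductSpace ℂ U] [FiniteDimensional ℂ U]

/-- FCALC-A: every vector is a finite sum of Casimir eigenvectors (in `V`) -/
theorem casV_decomp {R : RepData P U} (f : V R) : ∃ (s : Finset ℝ) (g : ℝ → V R),
    (∀ μ ∈ s, 0 ≤ μ) ∧ (∀ μ ∈ s, casV R (g μ) = (μ : ℂ) • g μ) ∧ f = ∑ μ ∈ s, g μ := by
  classical
  obtain ⟨s, g, h0, hV, hc, hf⟩ := casimir_decomp f.2
  refine ⟨s, fun μ => if h : μ ∈ s then ⟨g μ, hV μ h⟩ else 0, h0, ?_, ?_⟩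
  · intro μ hμ
    simp only [dif_pos hμ]
    apply Subtype.ext
    rw [casV_coe]
    exact hc μ hμ
  · apply Subtype.ext
    rw [hf, Submodule.coe_sum]
    refine Finset.sum_congr rfl fun μ hμ => ?_
    rw [dif_pos hμ]

/-- FCALC-A -/
theorem exists_fcalc (R : RepData P U) (φ : ℝ → ℝ) : ∃ D : V R →ₗ[ℂ] V R,
    ∀ (f : V R) (μ : ℝ), casV R f = (μ : ℂ) • f → D f = ((φ μ : ℝ) : ℂ) • f := by
  classical
  set E : ℝ → Submodule ℂ (V R) := fun μ => Module.End.eigenspace (casV R) (μ : ℂ) with hE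
  have hind : iSupIndep E :=
    (Module.End.eigenspaces_iSupIndep (casV R)).comp Complex.ofReal_injective
  have htop : ⨆ μ, E μ = ⊤ := by
    rw [eq_top_iff]
    intro f _
    obtain ⟨s, g, _, h1, rfl⟩ := casV_decomp f
    refine Submodule.sum_mem _ fun μ hμ => ?_
    refine Submodule.mem_iSup_of_mem μ ?_
    exact Module.End.mem_eigenspace_iff.2 (h1 μ hμ)
  have hint : DirectSum.IsInternal E :=
    DirectSum.isInternal_submodule_of_iSupIndep_of_iSup_eq_top hind htop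
  let e : (DirectSum ℝ fun μ => E μ) ≃ₗ[ℂ] V R :=
    LinearEquiv.ofBijective (DirectSum.coeLinearMap E) hint
  refine ⟨(DirectSum.toModule ℂ ℝ (V R) fun μ => ((φ μ : ℝ) : ℂ) • (E μ).subtype) ∘ₗ
    e.symm.toLinearMap, ?_⟩
  intro f μ hf
  have hfE : f ∈ E μ := Module.End.mem_eigenspace_iff.2 hf
  have h1 : e.symm f = DirectSum.lof ℂ ℝ (fun μ => E μ) μ ⟨f, hfE⟩ := by
    rw [LinearEquiv.symm_apply_eq]
    exact (DirectSum.coeLinearMap_lof E μ ⟨f, hfE⟩).symm
  rw [LinearMap.comp_apply, LinearEquiv.coe_coe, h1, DirectSum.toModule_lof]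
  rfl

end Pool.Agent.Helper8.SG
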