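import Mathlib
import Pool.Agent.Helper38.SG.FCalc

/-! # Sobolev gap, piece FCALC-B: functional calculus of the Casimir operator of `K` -/

open Filter Topology Set MeasureTheory
open scoped RealInnerProductSpace ContDiff

universe u

namespace Pool.Agent.Helper8.SG

open Pool.Agent.Helper38.SG

set_option linter.unusedSectionVars false

variable {G 𝔤 : Type u} [Group G] [TopologicalSpace G] [IsTopologicalGroup G] [T2Space G]
  [NormedAddCommGroup 𝔤] [InnerProductSpace ℝ 𝔤] [FiniteDimensional ℝ 𝔤] {P : ParData G 𝔤}
  {U : Type u} [NormedAddCommGroup U] [InnerProductSpace ℂ U] [FiniteDimensional ℂ U]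

section
variable [MeasurableSpace P.K] [BorelSpace P.K] (μ : Measure P.K) [IsProbabilityMeasure μ]

theorem integrable_inner {h f : G → U} (hh : Continuous h) (hf : Continuous f) :
    Integrable (fun k : P.K => inner ℂ (h k) (f k)) μ := by
  have h3 : Continuous fun k : P.K => inner ℂ (h k) (f k) :=
    (hh.comp continuous_subtype_val).inner (hf.comp continuous_subtype_val)
  obtain ⟨B, hB⟩ := isCompact_univ.exists_bound_of_continuousOn h3.continuousOn
  exact Integrable.of_bound h3.aestronglyMeasurable B
    (Eventually.of_forall fun k => hB k (Set.mem_univ k))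

theorem pair_conj' (h f : G → U) : (starRingEnd ℂ) (pair μ h f) = pair μ f h := by
  unfold pair
  rw [← integral_conj]
  refine integral_congr_ae (Eventually.of_forall fun k => ?_)
  exact inner_conj_symm _ _

/-- the pairing as a linear functional of the second variable -/
noncomputable def pairL (R : RepData P U) (h : V R) : V R →ₗ[ℂ] ℂ where
  toFun f := pair μ (h : G → U) (f : G → U)
  map_add' f g := by
    unfold pair
    rw [← integral_add (integrable_inner μ h.2.1 f.2.1) (integrable_inner μ h.2.1 g.2.1)]
    refine integral_congr_ae (Eventually.of_forall fun k => ?_)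
    exact inner_add_right _ _ _
  map_smul' a f := by
    unfold pair
    rw [RingHom.id_apply, smul_eq_mul, ← integral_const_mul]
    refine integral_congr_ae (Eventually.of_forall fun k => ?_)
    exact inner_smul_right _ _ _

theorem pairL_apply (R : RepData P U) (h f : V R) :
    pairL μ R h f = pair μ (h : G → U) (f : G → U) := rfl

variable [μ.IsMulLeftInvariant] [μ.IsMulRightInvariant]

/-- the Lie algebra of `K` acts by skew operators -/
theorem pair_act_skew (R : RepData P U) {Z : 𝔤} (hZ : Z ∈ P.𝔨) (h f : V R) :
    pair μ (act R Z h : G → U) (f : G → U) = -pair μ (h : G → U) (act R Z f : G → U) := by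
  have hhs := smooth_of_mem_V h.2
  have hfs := smooth_of_mem_V f.2
  have hexp : Continuous fun t : ℝ => P.exp (-(t • Z)) :=
    P.continuous_exp.comp (continuous_id.smul continuous_const).neg
  have hlh : Continuous (P.lD Z (h : G → U)) := (lD_mem_V h.2 Z).1
  have hlf : Continuous (P.lD Z (f : G → U)) := (lD_mem_V f.2 Z).1
  have hder : ∀ (t : ℝ) (k : P.K), HasDerivAt
      (fun t : ℝ => inner ℂ ((h : G → U) (P.exp (-(t • Z)) * (k : G)))
        ((f : G → U) (P.exp (-(t • Z)) * (k : G))))
      (inner ℂ ((h : G → U) (P.exp (-(t • Z)) * (k : G)))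
        (P.lD Z (f : G → U) (P.exp (-(t • Z)) * (k : G))) +
       inner ℂ (P.lD Z (h : G → U) (P.exp (-(t • Z)) * (k : G)))
        ((f : G → U) (P.exp (-(t • Z)) * (k : G)))) t := by
    intro t k
    exact (LieData.hasDerivAt_lD P.toLieData hhs Z (k : G) t).inner ℂ
      (LieData.hasDerivAt_lD P.toLieData hfs Z (k : G) t)
  have hmain := hasDerivAt_integral_compact μ
    (fun t (k : P.K) => inner ℂ ((h : G → U) (P.exp (-(t • Z)) * (k : G)))
        ((f : G → U) (P.exp (-(t • Z)) * (k : G))))
    (fun t (k : P.K) => inner ℂ ((h : G → U) (P.exp (-(t • Z)) * (k : G)))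
        (P.lD Z (f : G → U) (P.exp (-(t • Z)) * (k : G))) +
       inner ℂ (P.lD Z (h : G → U) (P.exp (-(t • Z)) * (k : G)))
        ((f : G → U) (P.exp (-(t • Z)) * (k : G)))) hder ?_ ?_
  · have hconst : (fun t : ℝ => ∫ k : P.K, inner ℂ ((h : G → U) (P.exp (-(t • Z)) * (k : G)))
        ((f : G → U) (P.exp (-(t • Z)) * (k : G))) ∂μ) =
        fun _ => pair μ (h : G → U) (f : G → U) := by
      funext t
      have htb : P.exp (t • Z) ∈ P.K := (P.exp_mem_K Z).2 (P.mem_𝔨.1 hZ) t
      have := pair_lt_K μ (h := (h : G → U)) (f := (f : G → U)) htb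
      rw [← this]
      unfold pair lt
      rw [← P.exp_neg]
    rw [hconst] at hmain
    have h0 := hmain.unique (hasDerivAt_const _ _)
    simp only [zero_smul, neg_zero, P.exp_zero, one_mul] at h0
    rw [integral_add (integrable_inner μ h.2.1 hlf) (integrable_inner μ hlh f.2.1)] at h0
    rw [eq_neg_iff_add_eq_zero, add_comm]
    exact h0
  · intro t
    exact (h.2.1.comp (continuous_const.mul continuous_subtype_val)).inner
      (f.2.1.comp (continuous_const.mul continuous_subtype_val))
  · have hm : Continuous fun p : ℝ × P.K => P.exp (-(p.1 • Z)) * (p.2 : G) :=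
      (hexp.comp continuous_fst).mul (continuous_subtype_val.comp continuous_snd)
    exact ((h.2.1.comp hm).inner (hlf.comp hm)).add ((hlh.comp hm).inner (f.2.1.comp hm))

/-- the Casimir operator is symmetric: first form -/
theorem pair_casV_right (R : RepData P U) (h f : V R) :
    pair μ (h : G → U) (casV R f : G → U) =
      ∑ i, pair μ (act R (stdOrthonormalBasis ℝ P.𝔨 i : 𝔤) h : G → U)
        (act R (stdOrthonormalBasis ℝ P.𝔨 i : 𝔤) f : G → U) := by
  rw [← pairL_apply, casV, LinearMap.neg_apply, map_neg, LinearMap.sum_apply, map_sum,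
    ← Finset.sum_neg_distrib]
  refine Finset.sum_congr rfl fun i _ => ?_
  rw [LinearMap.comp_apply, pairL_apply,
    pair_act_skew μ R (stdOrthonormalBasis ℝ P.𝔨 i).2 h]

/-- the Casimir operator is symmetric -/
theorem pair_casV (R : RepData P U) (h f : V R) :
    pair μ (casV R h : G → U) (f : G → U) = pair μ (h : G → U) (casV R f : G → U) := by
  rw [← pair_conj', pair_casV_right, pair_casV_right, map_sum]
  refine Finset.sum_congr rfl fun i _ => ?_
  rw [pair_conj']

end

/-- FCALC-B: `φ(Δ)` is symmetric -/
theorem pair_fc [MeasurableSpace P.K] [BorelSpace P.K] (μ : Measure P.K)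
    [IsProbabilityMeasure μ] [μ.IsMulLeftInvariant] [μ.IsMulRightInvariant]
    (R : RepData P U) (φ : ℝ → ℝ) (h f : V R) :
    pair μ (fc R φ h : G → U) (f : G → U) = pair μ (h : G → U) (fc R φ f : G → U) := by
  have key : ∀ (f : V R) (b : ℝ), casV R f = (b : ℂ) • f → ∀ h : V R,
      pair μ (f : G → U) (fc R φ h : G → U) = ((φ b : ℝ) : ℂ) * pair μ (f : G → U) (h : G → U) := by
    intro f b hf h
    have h1 : (pairL μ R f) ∘ₗ (fc R φ) = ((φ b : ℝ) : ℂ) • pairL μ R f := by
      refine fc_ext fun h a _ ha => ?_
      rw [LinearMap.comp_apply, fc_apply R φ ha, map_smul, LinearMap.smul_apply, smul_eq_mul,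
        smul_eq_mul]
      by_cases hab : a = b
      · rw [hab]
      · have h2 := pair_casV μ R f h
        have h3 : pair μ (casV R f : G → U) (h : G → U) = (b : ℂ) * pairL μ R f h := by
          rw [← pair_conj', hf]
          have : pair μ (h : G → U) (((b : ℂ) • f : V R) : G → U) = (b : ℂ) * pairL μ R h f := by
            rw [← pairL_apply, map_smul, smul_eq_mul]
          rw [this, map_mul, Complex.conj_ofReal, pairL_apply, pair_conj', pairL_apply]
        have h4 : pair μ (f : G → U) (casV R h : G → U) = (a : ℂ) * pairL μ R f h := by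
          rw [← pairL_apply, ha, map_smul, smul_eq_mul]
        rw [h3, h4] at h2
        have h5 : ((b : ℂ) - a) * pairL μ R f h = 0 := by
          rw [sub_mul, h2, sub_self]
        have h6 : (b : ℂ) - a ≠ 0 := by
          rw [sub_ne_zero]
          intro h7
          exact hab (Complex.ofReal_injective h7).symm
        rw [(mul_eq_zero.1 h5).resolve_left h6, mul_zero, mul_zero]
    have h2 := LinearMap.congr_fun h1 h
    simpa [pairL_apply] using h2
  have h1 : pairL μ R (fc R φ h) = (pairL μ R h) ∘ₗ (fc R φ) := by
    refine fc_ext fun f b _ hf => ?_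
    rw [LinearMap.comp_apply, fc_apply R φ hf, map_smul, smul_eq_mul, pairL_apply, pairL_apply,
      ← pair_conj', key f b hf h, map_mul, Complex.conj_ofReal, pair_conj']
  have h2 := LinearMap.congr_fun h1 f
  simpa [pairL_apply] using h2

end Pool.Agent.Helper8.SG
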