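import Mathlib
import Pool.Agent.Helper38.SG.CalcC
import Pool.Agent.Helper38.SG.LinB

/-! # Sobolev gap, piece INV-A: translation of integrals over `K` -/

open Filter Topology Set MeasureTheory
open scoped RealInnerProductSpace ContDiff

universe u

namespace Pool.Agent.Helper8.SG

set_option linter.unusedSectionVars false

open Pool.Agent.Helper38.SG

/-- differentiation under the integral over a compact space -/
theorem hasDerivAt_integral_compact {K : Type*} [TopologicalSpace K] [CompactSpace K]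
    [MeasurableSpace K] [BorelSpace K] (μ : Measure K) [IsFiniteMeasure μ]
    (h h' : ℝ → K → ℂ) (hd : ∀ t k, HasDerivAt (fun t => h t k) (h' t k) t)
    (hc : ∀ t, Continuous (h t)) (hc' : Continuous (fun p : ℝ × K => h' p.1 p.2)) :
    HasDerivAt (fun t => ∫ k, h t k ∂μ) (∫ k, h' 0 k ∂μ) 0 := by
  have hcomp : IsCompact ((Set.Icc (-1 : ℝ) 1) ×ˢ (Set.univ : Set K)) :=
    isCompact_Icc.prod isCompact_univ
  obtain ⟨C, hC⟩ := hcomp.exists_bound_of_continuousOn hc'.continuousOn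
  have hint : ∀ f : K → ℂ, Continuous f → Integrable f μ := by
    intro f hf
    obtain ⟨B, hB⟩ := isCompact_univ.exists_bound_of_continuousOn hf.continuousOn
    exact Integrable.of_bound hf.aestronglyMeasurable B
      (Eventually.of_forall fun k => hB k (Set.mem_univ k))
  refine (hasDerivAt_integral_of_dominated_loc_of_deriv_le (μ := μ) (bound := fun _ => C)
    (F := h) (F' := h') (x₀ := (0 : ℝ)) (s := Set.Icc (-1 : ℝ) 1)
    (Icc_mem_nhds (by norm_num) (by norm_num)) ?_ ?_ ?_ ?_ ?_ ?_).2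
  · exact Eventually.of_forall fun t => (hc t).aestronglyMeasurable
  · exact hint _ (hc 0)
  · have : Continuous (h' 0) := hc'.comp (Continuous.prodMk_right 0)
    exact this.aestronglyMeasurable
  · exact Eventually.of_forall fun k t ht => hC (t, k) ⟨ht, Set.mem_univ _⟩
  · exact integrable_const C
  · exact Eventually.of_forall fun k t _ => hd t k

variable {G 𝔤 : Type u} [Group G] [TopologicalSpace G] [IsTopologicalGroup G] [T2Space G]
  [NormedAddCommGroup 𝔤] [InnerProductSpace ℝ 𝔤] [FiniteDimensional ℝ 𝔤] {P : ParData G 𝔤}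

theorem rD_add (X Y : 𝔤) (f : G → ℂ) (x : G) :
    P.rD (X + Y) f x = P.rD X f x + P.rD Y f x := by
  unfold LieData.rD
  rw [map_add]

theorem rD_neg (X : 𝔤) (f : G → ℂ) (x : G) : P.rD (-X) f x = -P.rD X f x := by
  unfold LieData.rD
  rw [map_neg]

theorem rD_smul (a : ℝ) (X : 𝔤) (f : G → ℂ) (x : G) :
    P.rD (a • X) f x = a • P.rD X f x := by
  unfold LieData.rD
  rw [map_smul]

theorem rD_sum {ι : Type*} (s : Finset ι) (X : ι → 𝔤) (f : G → ℂ) (x : G) :
    P.rD (∑ i ∈ s, X i) f x = ∑ i ∈ s, P.rD (X i) f x := by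
  unfold LieData.rD
  rw [map_sum]

/-- derivative along `𝔫` -/
theorem rD_𝔫 {Φ : G → ℂ} (hΦ : P.Smooth Φ) (hN : ∀ x, ∀ X ∈ P.𝔫, Φ (x * P.exp X) = Φ x)
    {X : 𝔤} (hX : X ∈ P.𝔫) (x : G) : P.rD X Φ x = 0 := by
  have h := LieData.hasDerivAt_rD P.toLieData hΦ X x 0
  have h1 : (fun t : ℝ => Φ (x * P.exp (t • X))) = fun _ => Φ x := by
    funext t
    exact hN x _ (P.𝔫.smul_mem t hX)
  rw [zero_smul, P.exp_zero, mul_one] at h
  rw [h1] at h
  exact h.unique (hasDerivAt_const _ _)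

/-- derivative along `𝔞` -/
theorem rD_𝔞 {Φ : G → ℂ} (hΦ : P.Smooth Φ)
    (hA : ∀ x, ∀ H ∈ P.𝔞, Φ (x * P.exp H) = Real.exp (-(2 * P.ρ H)) • Φ x)
    {H : 𝔤} (hH : H ∈ P.𝔞) (x : G) : P.rD H Φ x = (-(2 * P.ρ H)) • Φ x := by
  have h := LieData.hasDerivAt_rD P.toLieData hΦ H x 0
  have h1 : (fun t : ℝ => Φ (x * P.exp (t • H))) =
      fun t : ℝ => Real.exp (t * (-(2 * P.ρ H))) • Φ x := by
    funext t
    rw [hA x _ (P.𝔞.smul_mem t hH), map_smul, smul_eq_mul]
    congr 2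
    ring
  rw [zero_smul, P.exp_zero, mul_one] at h
  rw [h1] at h
  have h2 : HasDerivAt (fun t : ℝ => Real.exp (t * (-(2 * P.ρ H)))) (-(2 * P.ρ H)) 0 := by
    have := ((hasDerivAt_id (0 : ℝ)).mul_const (-(2 * P.ρ H))).exp
    simpa using this
  exact h.unique (h2.smul_const (Φ x))

variable [MeasurableSpace P.K] [BorelSpace P.K] (μ : Measure P.K) [IsProbabilityMeasure μ]
  [μ.IsMulLeftInvariant] [μ.IsMulRightInvariant]

/-- the class of densities -/
structure IsDens (P : ParData G 𝔤) (Φ : G → ℂ) : Prop where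
  smooth : P.Smooth Φ
  hA : ∀ x, ∀ H ∈ P.𝔞, Φ (x * P.exp H) = Real.exp (-(2 * P.ρ H)) • Φ x
  hN : ∀ x, ∀ X ∈ P.𝔫, Φ (x * P.exp X) = Φ x

omit [MeasurableSpace P.K] [BorelSpace P.K] in
theorem IsDens.left {Φ : G → ℂ} (h : IsDens P Φ) (g : G) : IsDens P (fun x => Φ (g * x)) where
  smooth := LieData.Smooth.comp_mul_left P.toLieData h.smooth g
  hA x H hH := by
    rw [← mul_assoc]
    exact h.hA _ H hH
  hN x X hX := by
    rw [← mul_assoc]
    exact h.hN _ X hX

include μ in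
/-- integration by parts on `K` -/
theorem integral_parts {Φ : G → ℂ} (hΦ : P.Smooth Φ) (W : 𝔤) {b : 𝔤} (hb : b ∈ P.𝔨) :
    ∫ k : P.K, ((⟪b, P.pK (-P.br b (P.Ad (k : G)⁻¹ W))⟫ : ℝ) • Φ k +
      (⟪b, P.pK (P.Ad (k : G)⁻¹ W)⟫ : ℝ) • P.rD b Φ k) ∂μ = 0 := by
  set ψ : G → ℂ := fun x => (⟪b, P.pK (P.Ad x⁻¹ W)⟫ : ℝ) • Φ x with hψ
  set ψ' : G → ℂ := fun x => (⟪b, P.pK (-P.br b (P.Ad x⁻¹ W))⟫ : ℝ) • Φ x +
      (⟪b, P.pK (P.Ad x⁻¹ W)⟫ : ℝ) • P.rD b Φ x with hψ'
  have hAdc : Continuous fun x : G => P.Ad x⁻¹ W :=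
    (P.continuous_Ad W).comp continuous_inv
  have hbr : Continuous (P.br b) := LinearMap.continuous_of_finiteDimensional _
  have hΦc : Continuous Φ := LieData.Smooth.continuous P.toLieData hΦ
  have hrc : Continuous (P.rD b Φ) :=
    LieData.Smooth.continuous P.toLieData (LieData.Smooth.rD P.toLieData hΦ b)
  have hψc : Continuous ψ := by
    have h1 : Continuous fun x : G => (⟪b, P.pK (P.Ad x⁻¹ W)⟫ : ℝ) :=
      continuous_const.inner (P.pK.continuous.comp hAdc)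
    exact h1.smul hΦc
  have hψ'c : Continuous ψ' := by
    have h1 : Continuous fun x : G => (⟪b, P.pK (P.Ad x⁻¹ W)⟫ : ℝ) :=
      continuous_const.inner (P.pK.continuous.comp hAdc)
    have h2 : Continuous fun x : G => (⟪b, P.pK (-P.br b (P.Ad x⁻¹ W))⟫ : ℝ) :=
      continuous_const.inner (P.pK.continuous.comp (hbr.comp hAdc).neg)
    exact (h2.smul hΦc).add (h1.smul hrc)
  have hexp : Continuous fun t : ℝ => P.exp (t • b) :=
    P.continuous_exp.comp (continuous_id.smul continuous_const)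
  have hder : ∀ (t : ℝ) (k : P.K), HasDerivAt (fun t : ℝ => ψ ((k : G) * P.exp (t • b)))
      (ψ' ((k : G) * P.exp (t • b))) t := by
    intro t k
    have h1 := LieData.hasDerivAt_rD P.toLieData (LieData.smooth_Ad_inv P.toLieData W) b
      (k : G) t
    rw [LieData.rD_Ad_inv] at h1
    have h2 : HasDerivAt (fun t : ℝ => (⟪b, P.pK (P.Ad ((k : G) * P.exp (t • b))⁻¹ W)⟫ : ℝ))
        (⟪b, P.pK (-P.br b (P.Ad ((k : G) * P.exp (t • b))⁻¹ W))⟫ : ℝ) t := by
      exact (((innerSL ℝ b).comp P.pK).hasFDerivAt).comp_hasDerivAt t h1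
    have h4 := LieData.hasDerivAt_rD P.toLieData hΦ b (k : G) t
    have h5 := h2.smul h4
    rw [add_comm] at h5
    exact h5
  have hmain := hasDerivAt_integral_compact μ
    (fun t (k : P.K) => ψ ((k : G) * P.exp (t • b)))
    (fun t (k : P.K) => ψ' ((k : G) * P.exp (t • b))) hder
    (fun t => hψc.comp (continuous_subtype_val.mul continuous_const))
    (hψ'c.comp ((continuous_subtype_val.comp continuous_snd).mul (hexp.comp continuous_fst)))
  have hconst : (fun t : ℝ => ∫ k : P.K, ψ ((k : G) * P.exp (t • b)) ∂μ) =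
      fun _ => ∫ k : P.K, ψ (k : G) ∂μ := by
    funext t
    have htb : P.exp (t • b) ∈ P.K := (P.exp_mem_K b).2 (P.mem_𝔨.1 hb) t
    exact integral_mul_right_eq_self (μ := μ) (fun k : P.K => ψ (k : G)) ⟨_, htb⟩
  rw [hconst] at hmain
  have h0 := hmain.unique (hasDerivAt_const _ _)
  rw [← h0]
  simp only [zero_smul, P.exp_zero, mul_one, hψ']

/-- the derivative of the integral of a density vanishes -/
theorem integral_rD_Ad {Φ : G → ℂ} (h : IsDens P Φ) (W : 𝔤) :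
    ∫ k : P.K, P.rD (P.Ad (k : G)⁻¹ W) Φ k ∂μ = 0 := by
  set b := stdOrthonormalBasis ℝ P.𝔨 with hb
  have hsk := P.br_self
  have hjac := P.jacobi
  have key : ∀ k : P.K, P.rD (P.Ad (k : G)⁻¹ W) Φ k = ∑ i,
      ((⟪(b i : 𝔤), P.pK (-P.br (b i : 𝔤) (P.Ad (k : G)⁻¹ W))⟫ : ℝ) • Φ k +
      (⟪(b i : 𝔤), P.pK (P.Ad (k : G)⁻¹ W)⟫ : ℝ) • P.rD (b i : 𝔤) Φ k) := by
    intro k
    set W' := P.Ad (k : G)⁻¹ W with hW'
    have h1 : W' = P.pK W' + P.Ea W' + P.pN W' := P.iwasawa_decomp hsk hjac W'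
    have hEa : P.Ea W' ∈ P.𝔞 := Submodule.starProjection_apply_mem _ _
    have h2 : P.pK W' = ∑ i, (⟪(b i : 𝔤), P.pK W'⟫ : ℝ) • (b i : 𝔤) := by
      have h3 := b.sum_repr' ⟨P.pK W', P.pK_mem hsk hjac W'⟩
      have h4 : ((∑ i, (⟪b i, (⟨P.pK W', P.pK_mem hsk hjac W'⟩ : P.𝔨)⟫ : ℝ) • b i : P.𝔨) : 𝔤) =
          P.pK W' := congrArg (Subtype.val) h3
      rw [Submodule.coe_sum] at h4
      exact h4.symm
    have h5 : ∑ i, (⟪(b i : 𝔤), P.pK (P.br (b i : 𝔤) W')⟫ : ℝ) = 2 * P.ρ (P.Ea W') :=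
      P.sum_inner_pK hsk hjac b W'
    have h6 : P.rD W' Φ k = P.rD (P.pK W') Φ k + P.rD (P.Ea W') Φ k + P.rD (P.pN W') Φ k := by
      rw [← rD_add, ← rD_add, ← h1]
    rw [h6, rD_𝔫 h.smooth h.hN (P.pN_mem hsk hjac W'), rD_𝔞 h.smooth h.hA hEa, add_zero,
      Finset.sum_add_distrib]
    have h7 : P.rD (P.pK W') Φ k = ∑ i, (⟪(b i : 𝔤), P.pK W'⟫ : ℝ) • P.rD (b i : 𝔤) Φ k := by
      conv_lhs => rw [h2]
      rw [rD_sum]
      refine Finset.sum_congr rfl fun i _ => ?_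
      rw [rD_smul]
    rw [h7, add_comm]
    congr 1
    rw [← Finset.sum_smul]
    congr 1
    simp only [map_neg, inner_neg_right, Finset.sum_neg_distrib]
    rw [h5]
  simp only [key]
  have hΦc : Continuous Φ := LieData.Smooth.continuous P.toLieData h.smooth
  have hAdc : Continuous fun x : G => P.Ad x⁻¹ W :=
    (P.continuous_Ad W).comp continuous_inv
  rw [integral_finsetSum]
  · refine Finset.sum_eq_zero fun i _ => ?_
    exact integral_parts μ h.smooth W (b i).2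
  · intro i _
    have hbr : Continuous (P.br (b i : 𝔤)) := LinearMap.continuous_of_finiteDimensional _
    have hrc : Continuous (P.rD (b i : 𝔤) Φ) :=
      LieData.Smooth.continuous P.toLieData (LieData.Smooth.rD P.toLieData h.smooth (b i : 𝔤))
    have h1 : Continuous fun x : G => (⟪(b i : 𝔤), P.pK (P.Ad x⁻¹ W)⟫ : ℝ) :=
      continuous_const.inner (P.pK.continuous.comp hAdc)
    have h2 : Continuous fun x : G => (⟪(b i : 𝔤), P.pK (-P.br (b i : 𝔤) (P.Ad x⁻¹ W))⟫ : ℝ) :=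
      continuous_const.inner (P.pK.continuous.comp (hbr.comp hAdc).neg)
    have h3 : Continuous fun k : P.K =>
        ((⟪(b i : 𝔤), P.pK (-P.br (b i : 𝔤) (P.Ad (k : G)⁻¹ W))⟫ : ℝ) • Φ k +
      (⟪(b i : 𝔤), P.pK (P.Ad (k : G)⁻¹ W)⟫ : ℝ) • P.rD (b i : 𝔤) Φ k) :=
      ((h2.smul hΦc).add (h1.smul hrc)).comp continuous_subtype_val
    obtain ⟨B, hB⟩ := isCompact_univ.exists_bound_of_continuousOn h3.continuousOn
    exact Integrable.of_bound h3.aestronglyMeasurable B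
      (Eventually.of_forall fun k => hB k (Set.mem_univ k))

theorem hasDerivAt_zero {Φ : G → ℂ} (h : IsDens P Φ) (W : 𝔤) :
    HasDerivAt (fun t : ℝ => ∫ k : P.K, Φ (P.exp (t • W) * k) ∂μ) 0 0 := by
  have hΦc : Continuous Φ := LieData.Smooth.continuous P.toLieData h.smooth
  have hlc : Continuous (P.lD (-W) Φ) :=
    LieData.Smooth.continuous P.toLieData (LieData.Smooth.lD P.toLieData h.smooth (-W))
  have hexp : Continuous fun t : ℝ => P.exp (t • W) :=
    P.continuous_exp.comp (continuous_id.smul continuous_const)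
  have hder : ∀ (t : ℝ) (k : P.K), HasDerivAt (fun t : ℝ => Φ (P.exp (t • W) * (k : G)))
      (P.lD (-W) Φ (P.exp (t • W) * (k : G))) t := by
    intro t k
    have h1 := LieData.hasDerivAt_lD P.toLieData h.smooth (-W) (k : G) t
    simpa using h1
  have hmain := hasDerivAt_integral_compact μ
    (fun t (k : P.K) => Φ (P.exp (t • W) * (k : G)))
    (fun t (k : P.K) => P.lD (-W) Φ (P.exp (t • W) * (k : G))) hder
    (fun t => hΦc.comp (continuous_const.mul continuous_subtype_val))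
    (hlc.comp ((hexp.comp continuous_fst).mul (continuous_subtype_val.comp continuous_snd)))
  have h2 : ∫ k : P.K, P.lD (-W) Φ (P.exp ((0 : ℝ) • W) * (k : G)) ∂μ = 0 := by
    rw [← integral_rD_Ad μ h W]
    refine integral_congr_ae (Eventually.of_forall fun k => ?_)
    simp only [zero_smul, P.exp_zero, one_mul]
    unfold LieData.lD
    rw [map_neg, rD_neg, neg_neg]
  rw [h2] at hmain
  exact hmain

theorem integral_exp {Φ : G → ℂ} (h : IsDens P Φ) (W : 𝔤) :
    ∫ k : P.K, Φ (P.exp W * k) ∂μ = ∫ k : P.K, Φ k ∂μ := by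
  set F : ℝ → ℂ := fun t => ∫ k : P.K, Φ (P.exp (t • W) * k) ∂μ with hF
  have hd : ∀ t, HasDerivAt F 0 t := by
    intro t
    have h1 := hasDerivAt_zero μ (h.left (P.exp (t • W))) W
    have h2 : (fun s : ℝ => ∫ k : P.K, Φ (P.exp (t • W) * (P.exp (s • W) * k)) ∂μ) =
        fun s => F (t + s) := by
      funext s
      simp only [hF]
      congr 1
      funext k
      rw [P.exp_add_smul, mul_assoc]
    rw [h2] at h1
    have h3 : HasDerivAt (fun s => F (t + s)) 0 (t - t) := by simpa using h1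
    have h4 := h3.comp_sub_const t t
    simpa using h4
  have hconst := is_const_of_deriv_eq_zero (f := F) (fun t => (hd t).differentiableAt)
    (fun t => (hd t).deriv) 1 0
  simpa [hF, P.exp_zero] using hconst

/-- INV-A -/
theorem integral_translate (Φ : G → ℂ) (hΦ : P.Smooth Φ)
    (hA : ∀ x, ∀ H ∈ P.𝔞, Φ (x * P.exp H) = Real.exp (-(2 * P.ρ H)) • Φ x)
    (hN : ∀ x, ∀ X ∈ P.𝔫, Φ (x * P.exp X) = Φ x) (g : G) :
    ∫ k : P.K, Φ (g * k) ∂μ = ∫ k : P.K, Φ k ∂μ := by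
  have h : IsDens P Φ := ⟨hΦ, hA, hN⟩
  obtain ⟨⟨k₀, X⟩, hk⟩ := P.polar.surjective g
  simp only at hk
  rw [← hk]
  have h1 := integral_exp μ (h.left (k₀ : G)) (X : 𝔤)
  simp only [← mul_assoc] at h1
  rw [h1]
  exact integral_mul_left_eq_self (μ := μ) (fun k : P.K => Φ (k : G)) k₀

end Pool.Agent.Helper8.SG
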